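import Pool.Agent.Helper97_WHT.Stmt

/-!
# Squad WHT, row LOWB: the lower bound for an orthonormal basis
-/

set_option autoImplicit false

open scoped BigOperators

namespace Pool.Agent.WHT.H38

open Pool.Agent.DEN Pool.Agent.TMP Pool.Agent.WHT

section
variable {G X : Type} [Group G] [MulAction G X] {Λ : Subgroup G}

/-- linearity in the second variable -/
theorem pet_lin {p : X → ℂ} (hp : H6.PV Λ p) {n : ℕ} (f : Fin n → X → ℂ) (a : Fin n → ℂ) :
    H6.pet Λ p (∑ j, a j • f j) = ∑ j, a j * H6.pet Λ p (f j) := by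
  have hD : ∀ o, p o.out ≠ 0 → o ∈ hp.2.toFinset := fun o ho => by
    rw [Set.Finite.mem_toFinset]; exact ho
  simp only [H6.pet_eq _ hD, Finset.mul_sum]
  rw [Finset.sum_comm]
  refine Finset.sum_congr rfl fun o _ => ?_
  rw [Finset.sum_apply, Finset.mul_sum, Finset.sum_div]
  refine Finset.sum_congr rfl fun j _ => ?_
  rw [Pi.smul_apply, smul_eq_mul]
  ring

theorem PV_lin {n : ℕ} (f : Fin n → X → ℂ) (hf : ∀ j, H6.PV Λ (f j)) (a : Fin n → ℂ) :
    H6.PV Λ (∑ j, a j • f j) := by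
  classical
  constructor
  · intro γ hγ x
    rw [Finset.sum_apply, Finset.sum_apply]
    refine Finset.sum_congr rfl fun j _ => ?_
    rw [Pi.smul_apply, Pi.smul_apply, (hf j).1 γ hγ]
  · refine (Set.finite_iUnion fun j => (hf j).2).subset ?_
    intro o ho
    rw [Set.mem_iUnion]
    by_contra h
    push Not at h
    apply ho
    rw [Finset.sum_apply]
    refine Finset.sum_eq_zero fun j _ => ?_
    have h1 : f j o.out = 0 := by
      by_contra h2
      exact h j h2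
    rw [Pi.smul_apply, h1, smul_zero]

/-- the norm of a combination of orthonormal functions -/
theorem nsq_lin {n : ℕ} (f : Fin n → X → ℂ) (hf : ∀ j, H6.PV Λ (f j))
    (horth : ∀ i j, H6.pet Λ (f i) (f j) = if i = j then 1 else 0) (a : Fin n → ℂ) :
    H6.nsq Λ (∑ j, a j • f j) = ∑ j, ‖a j‖ ^ 2 := by
  have h1 : H6.pet Λ (∑ j, a j • f j) (∑ j, a j • f j) = ((∑ j, ‖a j‖ ^ 2 : ℝ) : ℂ) := by
    rw [pet_lin (PV_lin f hf a)]
    push_cast
    refine Finset.sum_congr rfl fun j _ => ?_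
    rw [← H6.pet_conj (hf j), pet_lin (hf j)]
    have h2 : ∑ i, a i * H6.pet Λ (f j) (f i) = a j := by
      rw [Finset.sum_eq_single j]
      · rw [horth, if_pos rfl, mul_one]
      · intro b _ hb
        rw [horth, if_neg (Ne.symm hb), mul_zero]
      · intro h
        exact absurd (Finset.mem_univ j) h
    rw [h2, Complex.mul_conj, Complex.normSq_eq_norm_sq]
    push_cast
    rfl
  rw [H6.pet_self (PV_lin f hf a)] at h1
  exact_mod_cast h1

end

theorem lowb (hLowa : LowaStmt) (hUnf : UnfStmt) (hChx : ChxStmt) : LowbStmt := by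
  intro r C hC K _ _ P N hP hN hPN e he m hm hdeg n f hf hspan
  obtain ⟨L, hL⟩ := hPN
  have hNM : N = (P ^ 2 * L) * P ^ 2 := by rw [hL]; ring
  have hM0 : P ^ 2 * L ≠ 0 := by
    intro h
    apply hN
    rw [hNM, h, zero_mul]
  have hPdeg : 0 < P.natDegree := by
    rw [Polynomial.natDegree_pos_iff_degree_pos]
    exact Polynomial.degree_pos_of_ne_zero_of_nonunit hP.ne_zero hP.not_isUnit
  have hNdeg : 0 < N.natDegree := by
    rw [hNM, Polynomial.natDegree_mul hM0 (pow_ne_zero 2 hP.ne_zero), Polynomial.natDegree_pow]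
    omega
  obtain ⟨hchi, -, -, hgood⟩ := hChx r C hC K e N hN (fun _ => P)
  obtain ⟨hvol, p, hp, -, hunf, -⟩ := hUnf r C hC K N hNdeg (chi hC e N (fun _ => P)) hchi m
    (hgood m hm hdeg)
  obtain ⟨g, hg1, hg2, hg3⟩ := hLowa r C hC K P (P ^ 2 * L) hP hM0 ⟨L, rfl⟩ e he m hm (by
    rw [← hNM]; exact hdeg)
  rw [← hNM] at hg1 hg2 hg3
  obtain ⟨a, ha⟩ := (Submodule.mem_span_range_iff_exists_fun ℂ).mp (hspan g hg1)
  have hPV : ∀ j, H6.PV (cong C K 1 N) (f j) := fun j =>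
    ⟨(hf.1 j).1, H22.hFsp r C hC K N hN (f j) (hf.1 j)⟩
  have hw : (vol hC N m : ℂ) = ∑ j, a j * wh hC N (chi hC e N (fun _ => P)) m (f j) := by
    rw [← hg2, ← hunf g hg1.1, ← ha, pet_lin hp]
    refine Finset.sum_congr rfl fun j _ => ?_
    rw [hunf (f j) (hf.1 j).1]
  have hn : H6.nsq (cong C K 1 N) g = ∑ j, ‖a j‖ ^ 2 := by
    rw [← ha]
    exact nsq_lin f hPV hf.2 a
  rw [hn] at hg3
  set S := ∑ j, ‖wh hC N (chi hC e N (fun _ => P)) m (f j)‖ ^ 2 with hS
  have hS0 : 0 ≤ S := Finset.sum_nonneg fun _ _ => by positivity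
  have h1 : vol hC N m ≤ ∑ j, ‖a j‖ * ‖wh hC N (chi hC e N (fun _ => P)) m (f j)‖ := by
    have h2 : ‖(vol hC N m : ℂ)‖ = vol hC N m := by
      rw [Complex.norm_real, Real.norm_of_nonneg hvol.le]
    rw [← h2, hw]
    refine (norm_sum_le _ _).trans (le_of_eq ?_)
    exact Finset.sum_congr rfl fun j _ => norm_mul _ _
  have h3 := Finset.sum_mul_sq_le_sq_mul_sq Finset.univ (fun j => ‖a j‖)
    (fun j => ‖wh hC N (chi hC e N (fun _ => P)) m (f j)‖)
  have h4 : vol hC N m ^ 2 ≤ (Nat.card K : ℝ) ^ (2 * P.natDegree * (r + Nat.card (Rt C)) ^ 2) *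
      vol hC N m * S :=
    calc vol hC N m ^ 2 ≤ (∑ j, ‖a j‖ * ‖wh hC N (chi hC e N (fun _ => P)) m (f j)‖) ^ 2 :=
          pow_le_pow_left₀ hvol.le h1 2
      _ ≤ (∑ j, ‖a j‖ ^ 2) * S := h3
      _ ≤ _ := mul_le_mul_of_nonneg_right hg3 hS0
  refine le_of_mul_le_mul_left ?_ hvol
  calc vol hC N m * vol hC N m = vol hC N m ^ 2 := by ring
    _ ≤ _ := h4
    _ = _ := by ring

end Pool.Agent.WHT.H38
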