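import Pool.Agent.Helper97_WHT.Stmt

/-!
# Squad WHT, row POW: the power saving
-/

set_option autoImplicit false

open scoped BigOperators

namespace Pool.Agent.WHT.H38

open Pool.Agent.DEN Pool.Agent.TMP Pool.Agent.WHT

theorem bd_mono {K : Type} [Field K] {m n : ℤ} (h : m ≤ n) {a : FF K} (ha : a ∈ Bd K m) :
    a ∈ Bd K n := by
  intro k hk
  exact ha k (by omega)

theorem deep_mono {r : ℕ} {C : Matrix (Fin r) (Fin r) ℤ} {K : Type} [Field K]
    {hC : SimplyLaced C} {χ : grp C K → ℂ} {m : Fin r → ℤ} {D D' : ℕ} (h : D' ≤ D)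
    (hD : Deep hC χ m D) : Deep hC χ m D' := by
  have h' : (D' : ℤ) ≤ D := by exact_mod_cast h
  intro i
  refine ⟨h'.trans (hD i).1, fun a ha => (hD i).2 a (bd_mono (by omega) ha)⟩

theorem vol_nonneg {r : ℕ} {C : Matrix (Fin r) (Fin r) ℤ} {K : Type} [Field K]
    (hC : SimplyLaced C) (N : Polynomial K) (m : Fin r → ℤ) : 0 ≤ vol hC N m := by
  classical
  unfold vol
  refine finsum_nonneg fun o => ?_
  split_ifs
  · positivity
  · simp

theorem pow (hPar : ParStmt) (hMea : MeaStmt) : PowStmt := by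
  intro r C hC K _ _ N hN χ hχ m D hD n f hf κ R hκ hR τ σ hτ hσ hnorm lam hlam hbig
  obtain ⟨hK1, -, -, hK4⟩ := Pool.Agent.TMP.hKhk r C hC K
  have hHk : DEN.TMP.Hk (maxK C K) κ := ⟨hκ.1, hκ.2.1⟩
  obtain ⟨k, hk, hkκ, hkn⟩ := hK4 κ hHk
  have hkR : Rad k R := by
    intro g hg
    rw [← hkκ] at hg
    exact ⟨fun v hv => (hκ.2.2 g hg v hv).1, fun v hv => (hκ.2.2 g hg v hv).2⟩
  set s := D / (2 * R) with hs
  obtain ⟨k', hk', hR', hsum, hpow⟩ := hPar r C hC K k τ R hk hτ.le (hkn τ hnorm) hkR s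
  have h2s : 2 * (s * R) ≤ D := by
    calc 2 * (s * R) = D / (2 * R) * (2 * R) := by rw [hs]; ring
      _ ≤ D := Nat.div_mul_le_self D (2 * R)
  have hDs : D < 2 * (s * R) + 2 * R := by
    have h1 := Nat.lt_div_mul_add (a := D) (b := 2 * R) (by omega)
    calc D < D / (2 * R) * (2 * R) + 2 * R := h1
      _ = 2 * (s * R) + 2 * R := by rw [hs]; ring
  have hm := hMea r C hC K N hN χ hχ m (s * R) (deep_mono h2s hD) n f hf k' hk' hR'
    (fun j => lam j ^ s) (by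
      intro j x
      refine hpow (f j) (lam j) (fun x => ?_) x
      rw [← hlam j x]
      refine finsum_congr fun y => ?_
      rw [(hK1 k hk).2.1 x y, ← hkκ])
  have hv := vol_nonneg hC N m
  have hq : (1 : ℝ) < Nat.card K := by
    have : 1 < Nat.card K := Finite.one_lt_card
    exact_mod_cast this
  have hq0 : (0 : ℝ) < Nat.card K := by linarith
  have hτs : 0 < τ ^ (2 * s) := by positivity
  -- the lower bound
  have hlow : ((Nat.card K : ℝ) ^ (σ * R)) ^ (2 * s) * τ ^ (2 * s) *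
      ∑ j, ‖wh hC N χ m (f j)‖ ^ 2 ≤ τ ^ (2 * s) * vol hC N m := by
    calc ((Nat.card K : ℝ) ^ (σ * R)) ^ (2 * s) * τ ^ (2 * s) * ∑ j, ‖wh hC N χ m (f j)‖ ^ 2
        = ∑ j, ((Nat.card K : ℝ) ^ (σ * R) * τ) ^ (2 * s) * ‖wh hC N χ m (f j)‖ ^ 2 := by
          rw [Finset.mul_sum]
          refine Finset.sum_congr rfl fun j _ => ?_
          rw [mul_pow]
      _ ≤ ∑ j, ‖lam j ^ s‖ ^ 2 * ‖wh hC N χ m (f j)‖ ^ 2 := by
          refine Finset.sum_le_sum fun j _ => mul_le_mul_of_nonneg_right ?_ (by positivity)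
          rw [norm_pow, ← pow_mul, Nat.mul_comm s 2]
          exact pow_le_pow_left₀ (by positivity) (hbig j) _
      _ ≤ (∑ᶠ l, ‖sat hC k' l‖ ^ 2) * vol hC N m := hm
      _ ≤ τ ^ (2 * s) * vol hC N m := mul_le_mul_of_nonneg_right hsum hv
  have h3 : ((Nat.card K : ℝ) ^ (σ * R)) ^ (2 * s) * ∑ j, ‖wh hC N χ m (f j)‖ ^ 2 ≤
      vol hC N m := by
    refine le_of_mul_le_mul_left ?_ hτs
    refine le_trans (le_of_eq ?_) hlow
    ring
  have h4 : ((Nat.card K : ℝ) ^ (σ * R)) ^ (2 * s) = (Nat.card K : ℝ) ^ (σ * R * (2 * s : ℕ)) := by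
    rw [← Real.rpow_natCast, ← Real.rpow_mul hq0.le]
  have h5 : (Nat.card K : ℝ) ^ (σ * ((D : ℝ) - 2 * R)) ≤
      ((Nat.card K : ℝ) ^ (σ * R)) ^ (2 * s) := by
    rw [h4]
    refine Real.rpow_le_rpow_of_exponent_le hq.le ?_
    have h6 : (D : ℝ) ≤ 2 * (s * R) + 2 * R := by exact_mod_cast hDs.le
    push_cast
    nlinarith
  have hS : 0 ≤ ∑ j, ‖wh hC N χ m (f j)‖ ^ 2 := Finset.sum_nonneg fun _ _ => by positivity
  have h7 : (Nat.card K : ℝ) ^ (σ * ((D : ℝ) - 2 * R)) * ∑ j, ‖wh hC N χ m (f j)‖ ^ 2 ≤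
      vol hC N m := (mul_le_mul_of_nonneg_right h5 hS).trans h3
  have h8 : (0 : ℝ) < (Nat.card K : ℝ) ^ (σ * ((D : ℝ) - 2 * R)) := Real.rpow_pos_of_pos hq0 _
  rw [Real.rpow_neg hq0.le, ← div_eq_inv_mul, le_div_iff₀ h8, mul_comm]
  exact h7

end Pool.Agent.WHT.H38
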